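import Pool.Agent.H15.KI.TargetsB
import Pool.Agent.H14.KEW.Epi
import Pool.Agent.H84.KEW.Abs

/-!
# Module COK of the board kewi_modules: the cohomology of the image
-/

namespace Pool.Agent.H19.KI

open CategoryTheory TopologicalSpace Opposite AlgebraicGeometry Limits Abelian
open Pool.Agent.H15.KI Pool.Agent.H84.KEW
open Pool.Agent.H17.KW (redSh thickι Fsh AbSh KSh)

universe u

noncomputable section

lemma bij_of_coker {X : TopCat.{u}} {S : ShortComplex (Shf X)} (hS : S.ShortExact) {n : ℕ}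
    (h0 : Subsingleton (Sheaf.H S.X₃ n)) (h1 : Subsingleton (Sheaf.H S.X₃ (n + 1))) :
    Function.Bijective (Sheaf.H.map S.f (n + 1)) := by
  constructor
  · rw [injective_iff_map_eq_zero]
    intro x hx
    rw [Sheaf.H.map_apply] at hx
    obtain ⟨y, hy⟩ := Ext.covariant_sequence_exact₁ _ hS x hx rfl
    rw [← hy, Subsingleton.elim y 0, Ext.zero_comp]
  · intro y
    obtain ⟨x, hx⟩ := Ext.covariant_sequence_exact₂ _ hS y (Subsingleton.elim _ _)
    exact ⟨x, hx⟩

/-- the dimension function of specialization chains -/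
def dlt {X : Scheme.{u}} (x : X) : ℕ := (Order.height x).toNat

section dim

variable {X : Scheme.{u}} {d : ℕ} (hd : ∀ x : X, Order.coheight x ≤ d)

include hd

lemma height_le (x : X) : Order.height x ≤ d := by
  apply Order.height_le
  intro p _
  have h1 := Order.length_le_coheight_head (p := p)
  exact h1.trans (hd _)

lemma dlt_lt (x y : X) (h : x ⤳ y) (hne : x ≠ y) : dlt y < dlt x := by
  have hle : y ≤ x := h
  have hlt : y < x := by
    refine lt_of_le_not_ge hle ?_
    intro h2
    have h3 : y ⤳ x := h2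
    exact hne (h.antisymm h3).eq
  have hy : Order.height y < ⊤ := lt_of_le_of_lt (height_le hd y) (ENat.natCast_lt_top d)
  have hx : Order.height x < ⊤ := lt_of_le_of_lt (height_le hd x) (ENat.natCast_lt_top d)
  have h1 : Order.height y < Order.height x := Order.height_strictMono hlt hy
  unfold dlt
  rw [← ENat.natCast_lt_natCast, ENat.natCast_toNat hy.ne, ENat.natCast_toNat hx.ne]
  exact h1

omit hd in
lemma not_closed_of_dlt (x : X) (h : 1 ≤ dlt x) : ¬ IsClosed ({x} : Set X) := by
  intro hc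
  have h1 : Order.height x = 0 := by
    rw [Order.height_eq_zero]
    intro y hy
    have h2 : x ⤳ y := hy
    have h3 : y ∈ ({x} : Set X) := hc.closure_eq ▸ h2.mem_closure
    have h4 : y = x := h3
    rw [h4]
  unfold dlt at h
  rw [h1] at h
  simp at h

end dim

/-- composition of locally surjective morphisms -/
lemma locSurjAt_of {X : TopCat.{u}} {K I F K0 F0 : Shf X} (c : K0 ⟶ K) (ρ₁ : K ⟶ I) (j : I ⟶ F)
    (r : K0 ⟶ F0) (c' : F0 ⟶ F) (hr : Epi r) (h : c ≫ ρ₁ ≫ j = r ≫ c') {x : X}
    (hc : LocSurjAt c' x) : LocSurjAt j x := by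
  intro U hx g
  obtain ⟨V, hV, hxV, f, hf⟩ := hc U hx g
  obtain ⟨W, hW, hxW, k, hk⟩ := locSurj_of_epi r f hxV
  refine ⟨W, hW.trans hV, hxW, ρ₁.hom.app (op W) (c.hom.app (op W) k), ?_⟩
  have h1 : j.hom.app (op W) (ρ₁.hom.app (op W) (c.hom.app (op W) k)) =
      c'.hom.app (op W) (r.hom.app (op W) k) :=
    congrArg (fun t : K0 ⟶ F => t.hom.app (op W) k) h
  rw [h1, hk, map_app, hf, ← ConcreteCategory.comp_apply, ← Functor.map_comp]
  rfl

theorem pf_COK (hP : T_PNT.{u}) : T_COK.{u} := by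
  intro A _ _ X _ f π e q n hdim μ I ρ₁ j hρ hj hfac
  have hqs := Pool.Agent.H15.KEW.quasiSober_top X
  have hE : Epi (redSh (thickι f n) q (e + 1)) := inferInstance
  have hcomp : μ.c ≫ ρ₁ ≫ j = redSh (thickι f n) q (e + 1) ≫ μ.c' := by
    rw [hfac, μ.cρ]
  let S : ShortComplex (Shf X.toTopCat) := ShortComplex.mk j (cokernel.π j) (cokernel.condition j)
  have hS : S.ShortExact := ShortComplex.ShortExact.mk' (ShortComplex.exact_cokernel _)
    hj (inferInstanceAs (Epi (cokernel.π j)))
  have key : Subsingleton (Sheaf.H S.X₃ e) ∧ Subsingleton (Sheaf.H S.X₃ (e + 1)) := by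
    rcases Nat.eq_zero_or_pos e with he | he
    · obtain ⟨h1, h2, h3⟩ := μ.zero he
      have h4 : Epi (redSh (thickι f n) q (e + 1) ≫ μ.c') := @epi_comp _ _ _ _ _ _ hE _ h2
      have h5 : Epi ((μ.c ≫ ρ₁) ≫ j) := by
        rw [Category.assoc, hcomp]
        exact h4
      have h6 : Epi j := epi_of_epi (μ.c ≫ ρ₁) j
      have h7 : IsZero S.X₃ := by
        refine IsZero.of_epi_eq_zero (cokernel.π j) ?_
        rw [← cancel_epi j, cokernel.condition, comp_zero]
      exact ⟨Sheaf.subsingleton_H_of_isZero h7 _, Sheaf.subsingleton_H_of_isZero h7 _⟩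
    · have hz : ∀ x : X.toTopCat, 1 ≤ dlt (X := X) x → ZeroAt S.X₃ x := by
        intro x hx
        have h1 : Inf (X := X) x := hP X x (not_closed_of_dlt x hx)
        exact zeroAt_of_locSurjAt (locSurjAt_of μ.c ρ₁ j _ μ.c' hE hcomp (μ.surj' x h1))
          (cokernel.π j) (cokernel.condition j)
      have h2 := dim_vanishing (X := X.toTopCat) t_flasque.{u}
        (δ := fun x => dlt (X := X) x) (fun x y h hne => dlt_lt hdim x y h hne) 1 S.X₃ hz
      exact ⟨h2 e he, h2 (e + 1) (by omega)⟩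
  exact bij_of_coker hS key.1 key.2

end

end Pool.Agent.H19.KI
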