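import Pool.Agent.H15.KI.TargetsB

/-!
# Modules GNP and GSP of the board kewi_modules: infinite residue fields
-/

namespace Pool.Agent.H19.KI

open AlgebraicGeometry CategoryTheory TopologicalSpace IsLocalRing
open Pool.Agent.H15.KI
open Pool.Agent.H19.KEW (stalk_domain coheight_prm stA_ne_zero not_sp_of_coheight)
open Pool.Agent.H15.KEW (prm prm_le_iff prm_self exists_prm sp_iff)
open Pool.Agent.H17.KW (Pts)
open Pool.Agent.H12.KG (Sp GenSp kA stA rho)

universe u

/-! ### Algebra -/

section alg

open MvPolynomial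

variable {R : Type u} [CommRing R] {n : ℕ}

lemma isPrime_map_C (P : Ideal R) [hP : P.IsPrime] :
    (P.map (C : R →+* MvPolynomial (Fin n) R)).IsPrime := by
  rw [← Ideal.Quotient.isDomain_iff_prime]
  exact (quotientEquivQuotientMvPolynomial (σ := Fin n) P).symm.injective.isDomain
    (quotientEquivQuotientMvPolynomial (σ := Fin n) P).symm.toRingEquiv.toRingHom

/-- a prime of height at most one of a polynomial ring over a domain, which contains a nonzero
constant, is generated by constants -/
lemma prime_of_height_le_one [IsDomain R] (P : Ideal (MvPolynomial (Fin n) R)) [hP : P.IsPrime]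
    (hh : P.height ≤ 1) {a : R} (ha : a ≠ 0) (hm : (C a : MvPolynomial (Fin n) R) ∈ P) :
    P = (P.comap (C : R →+* MvPolynomial (Fin n) R)).map C := by
  have hp : (P.comap (C : R →+* MvPolynomial (Fin n) R)).IsPrime := Ideal.comap_isPrime _ _
  have hJ := isPrime_map_C (n := n) (P.comap (C : R →+* MvPolynomial (Fin n) R))
  have hle : (P.comap (C : R →+* MvPolynomial (Fin n) R)).map C ≤ P := Ideal.map_comap_le
  by_contra hne
  have hlt := lt_of_le_of_ne hle (Ne.symm hne)
  have hfin : P.FiniteHeight := by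
    rw [Ideal.finiteHeight_iff]
    right
    intro h
    rw [h] at hh
    exact absurd hh (by simp)
  have h1 := Ideal.height_strict_mono_of_isPrime_of_isPrime hlt
  have h2 : ((P.comap (C : R →+* MvPolynomial (Fin n) R)).map
      (C : R →+* MvPolynomial (Fin n) R)).height = 0 :=
    Order.lt_one_iff.1 (h1.trans_le hh)
  have h3 := (Ideal.height_eq_zero_iff).1 h2
  rw [IsDomain.minimalPrimes_eq_singleton_bot] at h3
  have h4 : (C a : MvPolynomial (Fin n) R) ∈ (⊥ : Ideal (MvPolynomial (Fin n) R)) := by
    rw [← show _ = _ from h3]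
    exact Ideal.mem_map_of_mem _ hm
  exact ha (C_eq_zero.1 (Ideal.mem_bot.1 h4))

/-- the residue ring is infinite -/
lemma infinite_of_ker {K : Type u} [CommRing K] [Nontrivial K] (i : Fin n)
    (ψ : MvPolynomial (Fin n) R →+* K)
    (hψ : RingHom.ker ψ = ((RingHom.ker ψ).comap (C : R →+* MvPolynomial (Fin n) R)).map C) :
    Infinite K := by
  refine Infinite.of_injective (fun k : ℕ => ψ (X i ^ k)) ?_
  intro k l hkl
  by_contra hne
  have h1 : (X i ^ k - X i ^ l : MvPolynomial (Fin n) R) ∈ RingHom.ker ψ := by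
    rw [RingHom.mem_ker, map_sub]
    exact sub_eq_zero.2 hkl
  rw [hψ, mem_map_C_iff] at h1
  have h2 := h1 (Finsupp.single i k)
  rw [coeff_sub, coeff_X_pow, coeff_X_pow, if_pos rfl, if_neg, sub_zero] at h2
  · have h3 : ψ (C 1) = 0 := h2
    rw [map_one, map_one] at h3
    exact one_ne_zero h3
  · intro h
    have := Finsupp.single_injective i h
    exact hne this.symm

end alg

variable {A : Type u} [CommRing A] {X : Scheme.{u}}

/-! ### Points of codimension zero -/

theorem pf_GNP : T_GNP.{u} := by
  intro A _ _ _ _ X _ f e _ v hv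
  have hsm : Smooth f := SmoothOfRelativeDimension.smooth (n := e + 1) f
  obtain ⟨π, hπ⟩ := IsDiscreteValuationRing.exists_irreducible A
  have h1 : IsUnit (stA f v π) := not_not.1 (not_sp_of_coheight f hπ.ne_zero v hv)
  have hinj : ∀ a : A, IsLocalRing.residue (X.presheaf.stalk v) (stA f v a) = 0 → a = 0 := by
    intro a ha
    by_contra hne
    obtain ⟨k, hk⟩ := IsDiscreteValuationRing.associated_pow_irreducible hne hπ
    obtain ⟨w, hw⟩ := hk
    have h2 : IsUnit (stA f v a) := by
      have h3 : IsUnit (stA f v (a * w)) := by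
        rw [hw, map_pow]
        exact h1.pow k
      rw [map_mul] at h3
      exact isUnit_of_mul_isUnit_left h3
    have h4 := h2.map (IsLocalRing.residue (X.presheaf.stalk v))
    rw [ha] at h4
    exact not_isUnit_zero h4
  refine Infinite.of_injective
    (fun n : ℕ => IsLocalRing.residue (X.presheaf.stalk v) (stA f v (n : A))) ?_
  intro k l hkl
  have h2 : IsLocalRing.residue (X.presheaf.stalk v) (stA f v ((k : A) - (l : A))) = 0 := by
    rw [map_sub, map_sub]
    exact sub_eq_zero.2 hkl
  have h3 := hinj _ h2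
  exact Nat.cast_injective (sub_eq_zero.1 h3)

/-! ### Generic points of the special fibre -/

lemma coheight_le_one [IsDomain A] [IsDiscreteValuationRing A] [IsNoetherian X]
    (f : X ⟶ Spec (CommRingCat.of A)) [Smooth f] (π : A) {v y : X} (hv : Order.coheight v = 0)
    (h : GenSp f π v y) : Order.coheight y ≤ 1 := by
  have hdom := stalk_domain f y
  have hmin : maximalIdeal (X.presheaf.stalk y) ∈
      (Ideal.span {stA f y π}).minimalPrimes := by
    refine ⟨⟨inferInstance, ?_⟩, ?_⟩
    · rw [Ideal.span_le, Set.singleton_subset_iff]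
      exact (mem_maximalIdeal _).2 h.2.1
    · rintro Q ⟨hQ, hle⟩ _
      obtain ⟨y', h', hy'⟩ := exists_prm (⟨Q, hQ⟩ : PrimeSpectrum (X.presheaf.stalk y))
      have hy'' : (prm h').asIdeal = Q := congrArg PrimeSpectrum.asIdeal hy'
      have hsp : Sp f π y' := by
        rw [sp_iff f π h', hy'']
        exact hle (Ideal.mem_span_singleton_self _)
      have hvy : v ⤳ y' := by
        rw [← prm_le_iff h.1 h']
        have h3 : (prm h.1).asIdeal = ⊥ := by
          have h4 : (prm h.1).asIdeal.height = 0 := by rw [← coheight_prm h.1, hv]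
          have h5 := (Ideal.height_eq_zero_iff (I := (prm h.1).asIdeal)).1 h4
          rw [IsDomain.minimalPrimes_eq_singleton_bot] at h5
          exact h5
        show (prm h.1).asIdeal ≤ (prm h').asIdeal
        rw [h3]
        exact bot_le
      have h6 := h.2.2 y' hvy h' hsp
      subst h6
      rw [← hy'', prm_self]
      exact le_rfl
  have h1 := Ideal.height_le_one_of_isPrincipal_of_mem_minimalPrimes _ _ hmin
  have h2 : ringKrullDim (X.presheaf.stalk y) = (maximalIdeal (X.presheaf.stalk y)).height :=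
    (IsLocalRing.maximalIdeal_height_eq_ringKrullDim).symm
  rw [ringKrullDim_stalk_eq_coheight] at h2
  have h3 : Order.coheight y = (maximalIdeal (X.presheaf.stalk y)).height := by exact_mod_cast h2
  rw [h3]
  exact h1

theorem inf_of_sp [IsDomain A] [IsDiscreteValuationRing A] [IsNoetherian X]
    (f : X ⟶ Spec (CommRingCat.of A)) (e : ℕ) [SmoothOfRelativeDimension (e + 1) f] {π : A}
    (hπ : π ≠ 0) (y : X) (hy : Sp f π y) (hc : Order.coheight y ≤ 1) : Inf y := by
  have hsm : Smooth f := SmoothOfRelativeDimension.smooth (n := e + 1) f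
  obtain ⟨U, hU, V, hV, hx, hle, hf⟩ :=
    SmoothOfRelativeDimension.exists_isStandardSmoothOfRelativeDimension (n := e + 1) (f := f) y
  obtain ⟨g, hgC, hg⟩ := hf.exists_etale_mvPolynomial
  have hUne : Nonempty U := ⟨⟨f.base y, hle hx⟩⟩
  have hdomU : IsDomain Γ(Spec (CommRingCat.of A), U) := inferInstance
  have hN : IsNoetherianRing Γ(X, V) := IsLocallyNoetherian.component_noetherian ⟨V, hV⟩
  have hNU : IsNoetherianRing Γ(Spec (CommRingCat.of A), U) :=
    IsLocallyNoetherian.component_noetherian ⟨U, hU⟩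
  -- the prime of the point
  set 𝔮 : Ideal Γ(X, V) := (hV.primeIdealOf ⟨y, hx⟩).asIdeal with h𝔮
  have hloc := hV.isLocalization_stalk ⟨y, hx⟩
  let alg := TopCat.Presheaf.algebra_section_stalk X.presheaf ⟨y, hx⟩
  have hqh : 𝔮.height ≤ 1 := by
    have h1 := IsLocalization.AtPrime.ringKrullDim_eq_height 𝔮 (X.presheaf.stalk y)
    rw [ringKrullDim_stalk_eq_coheight] at h1
    have h2 : Order.coheight y = 𝔮.height := by exact_mod_cast h1
    rw [← h2]
    exact hc
  let θ : Γ(X, V) →+* ResidueField (X.presheaf.stalk y) :=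
    (residue (X.presheaf.stalk y)).comp (X.presheaf.germ V y hx).hom
  have hθ : RingHom.ker θ = 𝔮 := by
    ext b
    rw [RingHom.mem_ker]
    show residue (X.presheaf.stalk y) (X.presheaf.germ V y hx b) = 0 ↔ _
    rw [residue_eq_zero_iff]
    exact IsLocalization.AtPrime.to_map_mem_maximal_iff (X.presheaf.stalk y) 𝔮 b
  let ψ : MvPolynomial (Fin (e + 1)) Γ(Spec (CommRingCat.of A), U) →+*
      ResidueField (X.presheaf.stalk y) := θ.comp g
  have hker : RingHom.ker ψ = 𝔮.comap g := by
    rw [← hθ]
    rfl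
  have hprime : (RingHom.ker ψ).IsPrime := RingHom.ker_isPrime _
  have hheight : (RingHom.ker ψ).height ≤ 1 := by
    let _ := g.toAlgebra
    have : Algebra.Etale (MvPolynomial (Fin (e + 1)) Γ(Spec (CommRingCat.of A), U)) Γ(X, V) := hg
    have hover : 𝔮.LiesOver (RingHom.ker ψ) := ⟨hker⟩
    have h1 := Ideal.height_eq_height_add_of_liesOver_of_hasGoingDown (RingHom.ker ψ) 𝔮
    exact (le_of_le_of_eq le_self_add h1.symm).trans hqh
  -- the element `π`
  set a : Γ(Spec (CommRingCat.of A), U) :=
    (Spec (CommRingCat.of A)).presheaf.map (homOfLE le_top).op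
      ((Scheme.ΓSpecIso (CommRingCat.of A)).inv π) with ha
  have hga : X.presheaf.germ V y hx (g (MvPolynomial.C a)) = stA f y π := by
    have h1 : g (MvPolynomial.C a) = (f.appLE U V hle).hom a := by
      rw [← hgC]
      rfl
    rw [h1, ha]
    have h2 : (Spec (CommRingCat.of A)).presheaf.map (homOfLE le_top).op ≫ f.appLE U V hle =
        f.appLE ⊤ V le_top := f.map_appLE hle (homOfLE le_top).op
    have h6 : f.appTop ≫ X.presheaf.germ ⊤ y trivial
        = f.appLE ⊤ V le_top ≫ X.presheaf.germ V y hx := by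
      rw [Scheme.Hom.appLE, Category.assoc, TopCat.Presheaf.germ_res]
      rfl
    have h7 : stA f y π = (f.appTop ≫ X.presheaf.germ ⊤ y trivial)
        ((Scheme.ΓSpecIso (CommRingCat.of A)).inv π) := rfl
    rw [h7, h6, ← h2]
    rfl
  have hane : a ≠ 0 := by
    intro h
    rw [h, map_zero, map_zero, map_zero] at hga
    exact stA_ne_zero f y hπ hga.symm
  have hmem : (MvPolynomial.C a : MvPolynomial (Fin (e + 1)) Γ(Spec (CommRingCat.of A), U)) ∈
      RingHom.ker ψ := by
    rw [RingHom.mem_ker]
    show residue (X.presheaf.stalk y) (X.presheaf.germ V y hx (g (MvPolynomial.C a))) = 0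
    rw [hga, residue_eq_zero_iff]
    exact (mem_maximalIdeal _).2 hy
  have h1 := prime_of_height_le_one (RingHom.ker ψ) hheight hane hmem
  exact infinite_of_ker 0 ψ h1

theorem pf_GSP : T_GSP.{u} := by
  intro A _ _ _ X _ f π e _ hπ _ v y _ hg
  have hsm : Smooth f := SmoothOfRelativeDimension.smooth (n := e + 1) f
  have hv : Order.coheight v.1 = 0 := by
    have h1 : Order.coheight v.1 + ((e + 1 : ℕ) : ℕ∞) = 0 + ((e + 1 : ℕ) : ℕ∞) := by
      rw [v.2, zero_add]
    exact WithTop.add_right_cancel (ENat.natCast_ne_top (e + 1)) h1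
  exact inf_of_sp f e hπ.ne_zero y hg.2.1 (coheight_le_one f π hv hg)

end Pool.Agent.H19.KI
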