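import Pool.Agent.H15.KI.TargetsA

/-!
# Module NAGC of the board kewi_modules: `R ↦ R(t)` commutes with directed colimits
-/

namespace Pool.Agent.H19.KI

open Polynomial
open Pool.Agent.H15.KI

universe u

section nag

variable {R : Type u} [CommRing R]

lemma isUnit_pol {Q : R[X]} (h : Q ∈ cont R) : IsUnit (pol R Q) :=
  IsLocalization.map_units (M := cont R) (Localization (cont R)) ⟨Q, h⟩

lemma pol_surj (x : Nag R) : ∃ P Q : R[X], Q ∈ cont R ∧ x * pol R Q = pol R P := by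
  have h1 := IsLocalization.surj (M := cont R) (S := Localization (cont R)) x
  obtain ⟨⟨P, Q⟩, h⟩ := h1
  exact ⟨P, Q.1, Q.2, h⟩

lemma pol_eq_zero {P : R[X]} (h : pol R P = 0) : ∃ Q ∈ cont R, Q * P = 0 := by
  have h1 := (IsLocalization.map_eq_zero_iff (cont R) (Localization (cont R)) P).1 h
  obtain ⟨Q, hQ⟩ := h1
  exact ⟨Q.1, Q.2, hQ⟩

lemma pol_zero_of {P Q : R[X]} (hQ : Q ∈ cont R) (h : Q * P = 0) : pol R P = 0 := by
  have h1 : pol R Q * pol R P = 0 := by rw [← map_mul, h, map_zero]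
  exact (isUnit_pol hQ).mul_right_eq_zero.1 h1

lemma mem_cont_iff {P : R[X]} : P ∈ cont R ↔ ∃ (B : R[X]) (N : ℕ), (B * P).coeff N = 1 := by
  constructor
  · intro h
    have h0 : P.contentIdeal = ⊤ := h
    have h1 : (1 : R) ∈ Ideal.span (P.coeffs : Set R) := by
      rw [← contentIdeal_def, h0]
      exact Submodule.mem_top
    refine Submodule.span_induction (p := fun x _ => ∃ (B : R[X]) (N : ℕ), (B * P).coeff N = x)
      ?_ ?_ ?_ ?_ h1
    · intro x hx
      obtain ⟨n, _, hn⟩ := Polynomial.mem_coeffs_iff.1 hx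
      exact ⟨1, n, by rw [one_mul, hn]⟩
    · exact ⟨0, 0, by simp⟩
    · rintro x y _ _ ⟨B, N, hB⟩ ⟨B', N', hB'⟩
      refine ⟨B * X ^ N' + B' * X ^ N, N + N', ?_⟩
      have e1 : (B * X ^ N' + B' * X ^ N) * P = B * P * X ^ N' + B' * P * X ^ N := by ring
      rw [e1, coeff_add, coeff_mul_X_pow, add_comm N N', coeff_mul_X_pow, hB, hB']
    · rintro a x _ ⟨B, N, hB⟩
      refine ⟨C a * B, N, ?_⟩
      rw [mul_assoc, coeff_C_mul, hB, smul_eq_mul]
  · rintro ⟨B, N, h⟩
    show P.contentIdeal = ⊤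
    rw [Ideal.eq_top_iff_one, ← h, coeff_mul]
    exact Ideal.sum_mem _ fun i _ => Ideal.mul_mem_left _ _ (coeff_mem_contentIdeal P _)

end nag

section col

variable {J : Type u} [Preorder J] {R : J → Type u} [∀ j, CommRing (R j)] {S : Type u}
  [CommRing S] {r : ∀ i j, i ≤ j → R i →+* R j} {φ : ∀ j, R j →+* S} (h : IsCol R S r φ)

include h

lemma map_map_r {i j k : J} (h1 : i ≤ j) (h2 : j ≤ k) (P : (R i)[X]) :
    (P.map (r i j h1)).map (r j k h2) = P.map (r i k (h1.trans h2)) := by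
  rw [Polynomial.map_map, h.comp i j k h1 h2]

lemma map_map_phi {i j : J} (h1 : i ≤ j) (P : (R i)[X]) :
    (P.map (r i j h1)).map (φ j) = P.map (φ i) := by
  rw [Polynomial.map_map, h.map i j h1]

lemma lift_pol (P : S[X]) : ∃ (j : J) (P' : (R j)[X]), P'.map (φ j) = P := by
  induction P using Polynomial.induction_on' with
  | add P Q hP hQ =>
    obtain ⟨j, P', hP'⟩ := hP
    obtain ⟨k, Q', hQ'⟩ := hQ
    obtain ⟨l, hjl, hkl⟩ := h.dir j k
    refine ⟨l, P'.map (r j l hjl) + Q'.map (r k l hkl), ?_⟩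
    rw [Polynomial.map_add, map_map_phi h, map_map_phi h, hP', hQ']
  | monomial n a =>
    obtain ⟨j, x, hx⟩ := h.surj a
    exact ⟨j, monomial n x, by rw [map_monomial, hx]⟩

lemma kill_pol {j : J} (P : (R j)[X]) (hP : P.map (φ j) = 0) :
    ∃ (k : J) (hk : j ≤ k), P.map (r j k hk) = 0 := by
  have h1 : ∀ s : Finset ℕ, ∃ (k : J) (hk : j ≤ k), ∀ i ∈ s, r j k hk (P.coeff i) = 0 := by
    intro s
    classical
    induction s using Finset.induction_on with
    | empty => exact ⟨j, le_rfl, fun i hi => absurd hi (Finset.notMem_empty i)⟩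
    | insert a s ha ih =>
      obtain ⟨k, hk, h2⟩ := ih
      have h3 : φ j (P.coeff a) = 0 := by
        rw [← coeff_map, hP, coeff_zero]
      obtain ⟨k', hk', h4⟩ := h.inj j _ h3
      obtain ⟨l, hkl, hkl'⟩ := h.dir k k'
      refine ⟨l, hk.trans hkl, ?_⟩
      intro i hi
      rcases Finset.mem_insert.1 hi with rfl | hi
      · have := congrArg (fun f => f (P.coeff i)) (h.comp j k' l hk' hkl')
        simp only [RingHom.comp_apply] at this
        rw [← this, h4, map_zero]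
      · have := congrArg (fun f => f (P.coeff i)) (h.comp j k l hk hkl)
        simp only [RingHom.comp_apply] at this
        rw [← this, h2 i hi, map_zero]
  obtain ⟨k, hk, h2⟩ := h1 P.support
  refine ⟨k, hk, ?_⟩
  ext i
  rw [coeff_map, coeff_zero]
  by_cases hi : i ∈ P.support
  · exact h2 i hi
  · rw [notMem_support_iff.1 hi, map_zero]

lemma lift_cont {j : J} (P : (R j)[X]) (hP : P.map (φ j) ∈ cont S) :
    ∃ (k : J) (hk : j ≤ k), P.map (r j k hk) ∈ cont (R k) := by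
  obtain ⟨B, N, hB⟩ := mem_cont_iff.1 hP
  obtain ⟨i, B', hB'⟩ := lift_pol h B
  obtain ⟨k, hjk, hik⟩ := h.dir j i
  have h1 : φ k ((B'.map (r i k hik) * P.map (r j k hjk)).coeff N - 1) = 0 := by
    rw [map_sub, map_one, ← coeff_map, Polynomial.map_mul, map_map_phi h, map_map_phi h, hB', hB,
      sub_self]
  obtain ⟨l, hkl, h2⟩ := h.inj k _ h1
  refine ⟨l, hjk.trans hkl, mem_cont_iff.2 ⟨B'.map (r i l (hik.trans hkl)), N, ?_⟩⟩
  rw [← map_map_r h hik hkl, ← map_map_r h hjk hkl, ← Polynomial.map_mul, coeff_map]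
  rw [map_sub, map_one] at h2
  exact sub_eq_zero.1 h2

end col

theorem pf_NAGC : T_NAGC.{u} := by
  intro J _ R _ S _ r φ h
  refine ⟨h.dir, h.ne, ?_, ?_, ?_, ?_⟩
  · intro i j k h1 h2
    apply nag_ext
    intro P
    show nagMap (r j k h2) (nagMap (r i j h1) (pol (R i) P)) =
      nagMap (r i k (h1.trans h2)) (pol (R i) P)
    rw [nagMap_pol, nagMap_pol, nagMap_pol, map_map_r h]
  · intro i j h1
    apply nag_ext
    intro P
    show nagMap (φ j) (nagMap (r i j h1) (pol (R i) P)) = nagMap (φ i) (pol (R i) P)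
    rw [nagMap_pol, nagMap_pol, nagMap_pol, map_map_phi h]
  · intro s
    obtain ⟨P, Q, hQ, hs⟩ := pol_surj s
    obtain ⟨i, P', hP'⟩ := lift_pol h P
    obtain ⟨j, Q', hQ'⟩ := lift_pol h Q
    obtain ⟨k, hjk, hk⟩ := lift_cont h Q' (by rw [hQ']; exact hQ)
    obtain ⟨l, hil, hkl⟩ := h.dir i k
    have hQl : Q'.map (r j l (hjk.trans hkl)) ∈ cont (R l) := by
      rw [← map_map_r h hjk hkl]
      exact map_mem_cont _ hk
    obtain ⟨w, hw⟩ := isUnit_pol hQl
    refine ⟨l, pol (R l) (P'.map (r i l hil)) * ((w⁻¹ : (Nag (R l))ˣ) : Nag (R l)), ?_⟩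
    have h1 : nagMap (φ l) (pol (R l) (P'.map (r i l hil)) * ((w⁻¹ : (Nag (R l))ˣ) : Nag (R l))) *
        pol S Q = s * pol S Q := by
      have h2 : pol S Q = nagMap (φ l) (w : Nag (R l)) := by
        rw [hw, nagMap_pol, map_map_phi h, hQ']
      rw [hs]
      conv_lhs => rw [h2]
      rw [← map_mul, mul_assoc, Units.inv_mul, mul_one, nagMap_pol, map_map_phi h, hP']
    exact (isUnit_pol hQ).mul_right_cancel h1
  · intro j x hx
    obtain ⟨P, Q, hQ, hs⟩ := pol_surj x
    have h1 : pol S (P.map (φ j)) = 0 := by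
      rw [← nagMap_pol, ← hs, map_mul, hx, zero_mul]
    obtain ⟨Q', hQ', h2⟩ := pol_eq_zero h1
    obtain ⟨i, Q'', hQ''⟩ := lift_pol h Q'
    obtain ⟨k, hik, hk⟩ := lift_cont h Q'' (by rw [hQ'']; exact hQ')
    obtain ⟨l, hkl, hjl⟩ := h.dir k j
    have h3 : ((Q''.map (r i l (hik.trans hkl))) * P.map (r j l hjl)).map (φ l) = 0 := by
      rw [Polynomial.map_mul, map_map_phi h, map_map_phi h, hQ'', h2]
    obtain ⟨m, hlm, h4⟩ := kill_pol h _ h3
    rw [Polynomial.map_mul, map_map_r h, map_map_r h] at h4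
    have h5 : Q''.map (r i m ((hik.trans hkl).trans hlm)) ∈ cont (R m) := by
      rw [← map_map_r h hik (hkl.trans hlm)]
      exact map_mem_cont _ hk
    refine ⟨m, hjl.trans hlm, ?_⟩
    have h6 := pol_zero_of h5 h4
    have h7 : nagMap (r j m (hjl.trans hlm)) x * pol (R m) (Q.map (r j m (hjl.trans hlm))) = 0 := by
      rw [← nagMap_pol, ← map_mul, hs, nagMap_pol, h6]
    exact (isUnit_pol (map_mem_cont _ hQ)).mul_left_eq_zero.1 h7

end Pool.Agent.H19.KI
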