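import Pool.Agent.H15.KI.TargetsB
import Pool.Agent.H19.KSJ.Basic
import Pool.Agent.H19.KSJ.SMA
import Pool.Agent.H68.KSJ.R1U
import Pool.Agent.H81.KSJ.FRAC

/-!
# Module SMT of the board kewi_modules: small symbols at the top level
-/

open CategoryTheory TopologicalSpace Opposite AlgebraicGeometry Limits
open Pool.Agent.H62.MK Pool.Agent.H84.KEW
open Pool.Agent.H17.KW (kap Pts entry column dFam)
open Pool.Agent.H12.KG (Sp GenSp kA stA rho)

universe u

namespace Pool.Agent.H19.KI

open Pool.Agent.H12.KSJ Pool.Agent.H19.KSJ Pool.Agent.H15.KI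

theorem pf_SMT (hN : T_NSMg.{u}) (hQ : T_NQXg.{u}) : T_SMTg.{u} := by
  intro A _ _ _ X _ f π hπ e q n hq hn μ hdim hdvr R hR v y h hy hdl g
  have hA := pf_SMA.{u} Pool.Agent.H68.KSJ.pf_R1U
  have hF := Pool.Agent.H81.KSJ.pf_FRAC.{u}
  classical
  have hne : v.1.1 ≠ y := by
    intro h0
    exact v.2 (h0 ▸ hy)
  have hy1 : Order.coheight y = 1 := by
    have h1 := coheight_of_dl (e := e) (s := e + 1) (fun x => by exact_mod_cast hdim x) y hdl
    have h2 := coheight_lt_top' (N := e + 2) (fun x => by exact_mod_cast hdim x) y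
    obtain ⟨c, hc⟩ := ENat.ne_top_iff_exists.1 h2.ne
    rw [← hc] at h1 ⊢
    have h3 : c + (e + 1) = e + 2 := by exact_mod_cast h1
    have : c = 1 := by omega
    rw [this]
    rfl
  obtain ⟨hD, huniq⟩ := hdvr y hy1 v.1.1 h hne
  -- points of codimension zero above `y`
  have hpt0 : ∀ w : HPts f π (e + 1) (e + 1), w.1.1 ⤳ y → w = v := by
    intro w hw
    apply Subtype.ext
    apply Subtype.ext
    refine huniq w.1.1 hw ?_
    intro h0
    exact w.2 (h0 ▸ hy)
  -- points of codimension one above `y`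
  have hpt1 : ∀ w : Pts X (e + 1) e, w.1 ⤳ y → w.1 = y := by
    intro w hw
    by_contra hwy
    have h1 := huniq w.1 hw hwy
    obtain ⟨c, hc1, hc2⟩ := coheight_of_pts w
    obtain ⟨c', hc1', hc2'⟩ := coheight_of_pts v.1
    rw [h1, hc1'] at hc1
    have : c' = c := by exact_mod_cast hc1
    omega
  rw [hR y]
  let _ : Algebra (X.presheaf.stalk y) (kap X v.1.1) := (Pool.Agent.H17.KW.rho h).toAlgebra
  have hym : stA f y π ∈ IsLocalRing.maximalIdeal (X.presheaf.stalk y) :=
    (IsLocalRing.mem_maximalIdeal _).2 hy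
  have hπ0 : rho h (stA f y π) ≠ 0 := by
    rw [Pool.Agent.H15.KEW.rho_stA]
    exact fun h0 => v.2 ((Pool.Agent.H15.KEW.sp_iff' f π v.1.1).2 h0)
  set H : AddSubgroup (MilnorK (kap X v.1.1) (e + 1)) :=
    (nuGMd μ y).comap (DFinsupp.singleAddHom
      (fun v : HPts f π (e + 1) (e + 1) => AH f π (e + 1) (e + 1) v) v) with hH
  have H1 : ∀ (u : (kap X v.1.1)ˣ) (c : X.presheaf.stalk y)
      (b : Fin e → (X.presheaf.stalk y)ˣ),
      (u : kap X v.1.1) = 1 + algebraMap (X.presheaf.stalk y) (kap X v.1.1)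
        (stA f y π ^ n * c) → cup u (sym fun i => Units.map
        (algebraMap (X.presheaf.stalk y) (kap X v.1.1)).toMonoidHom (b i)) ∈ H := by
    intro u c b hu
    have hun : IsUnit (1 + stA f y π ^ n * c) := by
      by_contra h0
      have h1 := Ideal.sub_mem _ ((IsLocalRing.mem_maximalIdeal _).2 h0)
        (Ideal.mul_mem_right c _ (Ideal.pow_mem_of_mem _ hym n hn))
      rw [add_sub_cancel_right] at h1
      exact (IsLocalRing.mem_maximalIdeal (1 : X.presheaf.stalk y)).1 h1 isUnit_one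
    obtain ⟨w, hw⟩ := hun
    obtain ⟨G, hG1, hG2⟩ := hN A X f π hπ e q n μ y c w b hw
    have hG3 := gen_eq_of_mem_nuGerms (X := X.toTopCat) (pH f π (e + 1) (e + 1)) _ y hG1
    have e1 : G = DFinsupp.single (β := fun v : HPts f π (e + 1) (e + 1) =>
        AH f π (e + 1) (e + 1) v) v (cup u (sym fun i =>
        Units.map (algebraMap (X.presheaf.stalk y) (kap X v.1.1)).toMonoidHom (b i))) := by
      refine DFinsupp.ext fun w' => ?_
      by_cases hw' : w'.1.1 ⤳ y
      · obtain rfl := hpt0 w' hw'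
        rw [hG2 _ hw', DFinsupp.single_eq_same, map_sym, cup_sym]
        congr 1
        funext i
        refine Fin.cases ?_ (fun j => ?_) i
        · apply Units.ext
          rw [Fin.cons_zero, Fin.cons_zero, hu]
          change rho hw' (w : X.presheaf.stalk y) = 1 + rho h _
          rw [hw, map_add, map_one]
        · rw [Fin.cons_succ, Fin.cons_succ]
          rfl
      · rw [← hG3, gen_apply_neg (X := X.toTopCat) (pH f π (e + 1) (e + 1)) _ hw',
          DFinsupp.single_eq_of_ne]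
        rintro rfl
        exact hw' h
    rw [e1] at hG1
    exact hG1
  have H2 : ∀ ξ : MilnorK (kap X v.1.1) (e + 1),
      gerstenResidue (X.presheaf.stalk y) (kap X v.1.1) e ξ = 0 → q • ξ ∈ H := by
    intro ξ hξ
    rw [hH, AddSubgroup.mem_comap, map_nsmul, DFinsupp.singleAddHom_apply]
    refine hQ A X f π e q n μ y _ (gen_single_pos (X := X.toTopCat) (pH f π (e + 1) (e + 1))
      (A := AH f π (e + 1) (e + 1)) h ξ) ?_
    refine DFinsupp.ext fun w => ?_
    rw [DFinsupp.zero_apply]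
    by_cases hw : w.1 ⤳ y
    · rw [gen_apply_pos (X := X.toTopCat) _ _ hw, exH_single, dFam_single_apply]
      obtain rfl := hpt1 w hw
      have e2 : entry v.1.1 w.1 e = Pool.Agent.H62.KG.resX h e := Pool.Agent.H62.KG.entry_eq h e
      rw [e2]
      exact hξ
    · exact gen_apply_neg (X := X.toTopCat) _ _ hw
  obtain ⟨M, hM⟩ := hA (X.presheaf.stalk y) (kap X v.1.1) hD (hF X v.1.1 y h)
    (stA f y π) hym hπ0 q n e hq hn H H1 H2
  refine ⟨M, fun u g' hu _ => ?_⟩
  obtain ⟨c, hc⟩ := hu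
  have h1 := hM u c (by
    rw [hc]
    change _ = 1 + rho h (stA f y π ^ M * c)
    rw [map_mul, map_pow, Pool.Agent.H15.KEW.rho_stA]) g'
  exact h1

end Pool.Agent.H19.KI
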