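import Pool.Agent.H15.KI.TargetsB
import Pool.Agent.H84.KSJ.NUX

/-!
# Module NUX of the board kewi_modules: the embedding of the kernel of `ρ` in the sheaf of
horizontal families
-/

open CategoryTheory TopologicalSpace Opposite AlgebraicGeometry Limits
open Pool.Agent.H62.MK Pool.Agent.H84.KEW
open Pool.Agent.H17.KW (kap Pts entry column dFam D dD topSh KSh redSh thick thickι Fsh AbSh
  isLocalHom_dFam)
open Pool.Agent.H12.KG (Sp GenSp kA stA rho)

universe u

namespace Pool.Agent.H19.KI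

open Pool.Agent.H12.KSJ Pool.Agent.H84.KSJ Pool.Agent.H15.KI

noncomputable section

/-- The family of a section of the kernel. -/
theorem famOf_nuMd {A : Type u} [CommRing A] [IsLocalRing A] {X : Scheme.{u}} [IsNoetherian X]
    {f : X ⟶ Spec (CommRingCat.of A)} {π : A} {e q n : ℕ} (μ : Md f π e q n)
    {U : Opens X.toTopCat} (c : (NMd μ).obj.obj (op U)) :
    ∃ F : Π₀ v : Pts X (e + 1) (e + 1), MilnorK (kap X v.1) (e + 1),
      F = (show (E (X := X.toTopCat) (fun v : Pts X (e + 1) (e + 1) => (v.1 : X))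
        (fun v => MilnorK (kap X v.1) (e + 1))).sec U from
          μ.t.hom.app (op U) ((kernel.ι μ.ρ).hom.app (op U) c)).1 ∧
      famOf (X := X.toTopCat) (pH f π (e + 1) (e + 1)) (AH f π (e + 1) (e + 1))
        (nuMd μ) c = keep (X := X.toTopCat) (pH f π (e + 1) (e + 1))
          (AH f π (e + 1) (e + 1)) U (reH f π (e + 1) (e + 1) F) :=
  ⟨_, rfl, rfl⟩

/-- NUX. -/
theorem pf_NUX : T_NUXg.{u} := by
  intro A _ _ _ X _ f π hπ e q n hn hv μ
  refine ⟨?_, fun U c x hx => ?_, fun x hx g hg hd => ?_⟩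
  · have h1 : Mono μ.t := μ.res.mono
    have h2 := mono_reH f π (e + 1) (e + 1) hv
    have h3 : Mono (kernel.ι μ.ρ) := inferInstance
    exact @mono_comp _ _ _ _ _ _ h3 _ (@mono_comp _ _ _ _ _ _ h1 _ h2)
  · obtain ⟨F, hF, hc⟩ := famOf_nuMd μ c
    rw [hc]
    have h2 := comp_app_eq_zero μ.res.w0 ((kernel.ι μ.ρ).hom.app (op U) c)
    have h3 : keep (X := X.toTopCat) (fun v : Pts X (e + 1) e => (v.1 : X))
        (fun v => MilnorK (kap X v.1) e) U (dFam X (e + 1) e F) = 0 := by
      rw [hF]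
      exact congrArg Subtype.val h2
    refine DFinsupp.ext fun v => ?_
    by_cases hvx : v.1.1 ⤳ x
    · have hvU : v.1.1 ∈ U := hvx.mem_open U.2 hx
      have h4 := congrArg (fun t => t v.1) h3
      rw [keep_apply_pos (X := X.toTopCat) (fun v : Pts X (e + 1) e => (v.1 : X)) _ hvU] at h4
      have h5 := congrArg (fun t => t v) (keep_comp_keep (X := X.toTopCat)
        (isLocalHom_dH f π (e + 1) e) U (reH f π (e + 1) (e + 1) F))
      rw [keep_apply_pos (X := X.toTopCat) (pH f π (e + 1) e) _ (show pH f π (e + 1) e v ∈ U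
        from hvU), keep_apply_pos (X := X.toTopCat) (pH f π (e + 1) e) _
        (show pH f π (e + 1) e v ∈ U from hvU)] at h5
      rw [gen_apply_pos (X := X.toTopCat) (pH f π (e + 1) e) _
        (show pH f π (e + 1) e v ⤳ x from hvx), h5, dH_apply,
        dFam_exH_reH f π (e + 1) e F v.1 v.2]
      exact h4
    · rw [gen_apply_neg (X := X.toTopCat) (pH f π (e + 1) e) _
        (show ¬ pH f π (e + 1) e v ⤳ x from hvx)]
      rfl
  · have hopen : IsOpen {y : X | ¬ Sp f π y} := Pool.Agent.H15.KEW.isOpen_not_sp f π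
    have h1 := gen_dFam_exH f π (e + 1) e hx g hd
    obtain ⟨V, hxV, hVS, hV⟩ := exists_keep_eq (X := X.toTopCat)
      (fun v : Pts X (e + 1) e => (v.1 : X)) (U := ⟨{y : X | ¬ Sp f π y}, hopen⟩) (x := x) hx
      (f := dFam X (e + 1) e (exH f π (e + 1) (e + 1) g)) (g := 0) (by rw [h1, map_zero])
    rw [map_zero] at hV
    obtain ⟨W, hWV, hxW, s, hs⟩ := locEx_of_exact μ.res.exact0 x V hxV
      (show (E (X := X.toTopCat) (fun v : Pts X (e + 1) (e + 1) => (v.1 : X))
        (fun v => MilnorK (kap X v.1) (e + 1))).sec V from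
        ⟨keep (X := X.toTopCat) (fun v : Pts X (e + 1) (e + 1) => (v.1 : X)) _ V
          (exH f π (e + 1) (e + 1) g), fun i hi => keep_apply_neg (X := X.toTopCat) _ _ hi⟩) (by
        refine Subtype.ext ?_
        change keep (X := X.toTopCat) (fun v : Pts X (e + 1) e => (v.1 : X)) _ V
          (dFam X (e + 1) e (keep (X := X.toTopCat) (fun v : Pts X (e + 1) (e + 1) => (v.1 : X)) _ V
            (exH f π (e + 1) (e + 1) g))) = 0
        rw [keep_comp_keep (X := X.toTopCat) (isLocalHom_dFam X (e + 1) e), hV])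
    have h2 : μ.ρ.hom.app (op W) s = 0 := μ.out W (fun y hy => hVS (hWV hy)) _
    obtain ⟨k, hk⟩ := lift_kernel (X := X.toTopCat) μ.ρ s h2
    obtain ⟨F, hF, hc⟩ := famOf_nuMd μ k
    refine ⟨W, hxW, k, ?_⟩
    rw [hc]
    have h4 : F = keep (X := X.toTopCat) (fun v : Pts X (e + 1) (e + 1) => (v.1 : X)) _ W
        (keep (X := X.toTopCat) (fun v : Pts X (e + 1) (e + 1) => (v.1 : X)) _ V
          (exH f π (e + 1) (e + 1) g)) := by
      rw [hF, hk]
      exact congrArg Subtype.val hs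
    refine DFinsupp.ext fun v => ?_
    by_cases hvx : v.1.1 ⤳ x
    · have hvW : v.1.1 ∈ W := hvx.mem_open W.2 hxW
      rw [gen_apply_pos (X := X.toTopCat) (pH f π (e + 1) (e + 1)) _
        (show pH f π (e + 1) (e + 1) v ⤳ x from hvx),
        keep_apply_pos (X := X.toTopCat) (pH f π (e + 1) (e + 1)) _
        (show pH f π (e + 1) (e + 1) v ∈ W from hvW), reH_apply, h4,
        keep_apply_pos (X := X.toTopCat) (fun v : Pts X (e + 1) (e + 1) => (v.1 : X)) _ hvW,
        keep_apply_pos (X := X.toTopCat) (fun v : Pts X (e + 1) (e + 1) => (v.1 : X)) _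
          (hWV hvW)]
      exact exH_apply f π (e + 1) (e + 1) g v
    · have h5 := congrArg (fun t => t v) hg
      rw [gen_apply_neg (X := X.toTopCat) (pH f π (e + 1) (e + 1)) _
        (show ¬ pH f π (e + 1) (e + 1) v ⤳ x from hvx)] at h5 ⊢
      exact h5

end

end Pool.Agent.H19.KI
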